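import Pool.Agent.helper45.SGK.Spec

set_option autoImplicit false

namespace Pool.Agent.SGK

open Finset Pool.Agent.helper38.Neg Pool.Agent.helper55.NT
open Pool.Agent.SGC (Sg SCirc Ext Mv hw RN Solv stA stB)

/-- the wires of the circuit in the family -/
def AVG_wr {W : Type} {N s : ℕ} (u : Fin N → W) : Fin (N + s) → W ⊕ Fin s :=
  Fin.addCases (fun i => Sum.inl (u i)) fun j => Sum.inr j

theorem AVG_in {N s : ℕ} (C : Circuit N s) (y : Fin N → Bool) (i : Fin N) : C.val y (Fin.castAdd s i) = y i := by
  induction C with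
  | nil => rfl
  | snoc C g ih =>
    rename_i s'
    show Fin.snoc (α := fun _ => Bool) (C.val y) (g.eval (C.val y)) (Fin.castAdd (s' + 1) i) = y i
    have h : (Fin.castAdd (s' + 1) i : Fin (N + s' + 1)) = Fin.castSucc (Fin.castAdd s' i) := rfl
    rw [h, Fin.snoc_castSucc]
    exact ih

theorem AVG_wr_val {W : Type} {n N s : ℕ} (u : Fin N → W) (F : W → Fn n) (C : Circuit N s) (x : Fin n → Bool)
    (w : Fin (N + s)) :
    (Sum.elim F fun (j : Fin s) (x : Fin n → Bool) => C.val (fun i => F (u i) x) (Fin.natAdd N j)) (AVG_wr u w) x =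
      C.val (fun i => F (u i) x) w := by
  refine Fin.addCases (fun i => ?_) (fun j => ?_) w
  · unfold AVG_wr
    rw [Fin.addCases_left]
    exact (AVG_in C (fun i => F (u i) x) i).symm
  · unfold AVG_wr
    rw [Fin.addCases_right]
    rfl

open Classical in
/-- the gate as a symmetric function of a set of wires -/
theorem AVG_gate {W : Type} {n w : ℕ} (wr : Fin w → W) (F : W → Fn n) (v : Fin w → Fn n)
    (hv : ∀ i x, F (wr i) x = v i x) (g : Gate w) :
    ∃ (K : Finset W) (φ : ℕ → Bool), (∀ a ∈ K, ∃ i, a = wr i) ∧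
      ∀ x, g.eval (fun i => v i x) = φ (K.filter fun a => F a x = true).card := by
  rcases g with b | ⟨i, j⟩ | ⟨i, j⟩ | i
  · exact ⟨∅, fun _ => b, by simp, fun x => rfl⟩
  · refine ⟨{wr i, wr j}, fun m => decide (m = ({wr i, wr j} : Finset W).card), ?_, fun x => ?_⟩
    · intro a ha
      rcases Finset.mem_insert.mp ha with h | h
      · exact ⟨i, h⟩
      · exact ⟨j, Finset.mem_singleton.mp h⟩
    · show (v i x && v j x) = _
      rw [Bool.eq_iff_iff, Bool.and_eq_true, decide_eq_true_iff, Finset.card_filter_eq_iff]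
      simp only [Finset.mem_insert, Finset.mem_singleton, forall_eq_or_imp, forall_eq, hv]
  · refine ⟨{wr i, wr j}, fun m => decide (1 ≤ m), ?_, fun x => ?_⟩
    · intro a ha
      rcases Finset.mem_insert.mp ha with h | h
      · exact ⟨i, h⟩
      · exact ⟨j, Finset.mem_singleton.mp h⟩
    · show (v i x || v j x) = _
      rw [Bool.eq_iff_iff, Bool.or_eq_true, decide_eq_true_iff, Nat.succ_le_iff, Finset.card_pos]
      constructor
      · rintro (h | h)
        · exact ⟨wr i, Finset.mem_filter.mpr ⟨by simp, by rw [hv]; exact h⟩⟩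
        · exact ⟨wr j, Finset.mem_filter.mpr ⟨by simp, by rw [hv]; exact h⟩⟩
      · rintro ⟨a, ha⟩
        obtain ⟨h1, h2⟩ := Finset.mem_filter.mp ha
        rcases Finset.mem_insert.mp h1 with h | h
        · left
          rw [h, hv] at h2
          exact h2
        · right
          rw [Finset.mem_singleton.mp h, hv] at h2
          exact h2
  · refine ⟨{wr i}, fun m => decide (m = 0), fun a ha => ⟨i, Finset.mem_singleton.mp ha⟩, fun x => ?_⟩
    show (!(v i x)) = _
    rw [Bool.eq_iff_iff, decide_eq_true_iff, Finset.card_eq_zero, Finset.filter_eq_empty_iff]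
    simp [hv]

theorem AVG (hAVR : AVR_stmt) (hAVS : AVS_stmt) : AVG_stmt := by
  intro k _ n V W act F m N s C u hAv hu
  induction C with
  | nil =>
    have h := hAVR k n V W (W ⊕ Fin 0) act (act.sum (Act.triv _ (Fin 0))) F m
      (Sum.elim id fun j => Fin.elim0 j) hAv ?_ ?_
    · have h1 : (F ∘ (Sum.elim id fun j => Fin.elim0 j)) =
          (Sum.elim F fun (j : Fin 0) (x : Fin n → Bool) =>
            (Circuit.nil : Circuit N 0).val (fun i => F (u i) x) (Fin.natAdd N j)) := by
        funext w
        rcases w with w | w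
        · rfl
        · exact Fin.elim0 w
      rw [← h1]
      exact h
    · rintro (w | w) (w' | w') h
      · exact congrArg Sum.inl h
      · exact Fin.elim0 w'
      · exact Fin.elim0 w
      · exact Fin.elim0 w
    · rintro γ - (w | w)
      · rfl
      · exact Fin.elim0 w
  | snoc C g ih =>
    rename_i s'
    obtain ⟨K, φ, hK, hφ⟩ := AVG_gate (AVG_wr u)
      (Sum.elim F fun (j : Fin s') (x : Fin n → Bool) => C.val (fun i => F (u i) x) (Fin.natAdd N j))
      (fun w x => C.val (fun i => F (u i) x) w) (fun w x => AVG_wr_val u F C x w) g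
    have hfix : ∀ γ ∈ V, ∀ a ∈ K, (act.sum (Act.triv _ (Fin s'))).f γ a = a := by
      intro γ hγ a ha
      obtain ⟨i, rfl⟩ := hK a ha
      refine Fin.addCases (fun i => ?_) (fun j => ?_) i
      · unfold AVG_wr
        rw [Fin.addCases_left]
        show Sum.inl (act.f γ (u i)) = Sum.inl (u i)
        rw [hu γ hγ]
      · unfold AVG_wr
        rw [Fin.addCases_right]
        rfl
    have h := hAVS k n V (W ⊕ Fin s') Unit (act.sum (Act.triv _ (Fin s'))) (Act.triv _ Unit)
      (Sum.elim F fun (j : Fin s') (x : Fin n → Bool) => C.val (fun i => F (u i) x) (Fin.natAdd N j))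
      (m + s') (fun _ => K) (fun _ => φ) (fun _ x => g.eval (C.val fun i => F (u i) x)) ih ?_ ?_ ?_
    · have h2 := hAVR k n V ((W ⊕ Fin s') ⊕ Unit) (W ⊕ Fin (s' + 1)) _ (act.sum (Act.triv _ (Fin (s' + 1)))) _ _
        (Sum.elim (fun w => Sum.inl (Sum.inl w))
          (Fin.lastCases (motive := fun _ => (W ⊕ Fin s') ⊕ Unit) (Sum.inr ()) fun j => Sum.inl (Sum.inr j))) h ?_ ?_
      · have h3 : (Sum.elim (Sum.elim F fun (j : Fin s') (x : Fin n → Bool) =>
              C.val (fun i => F (u i) x) (Fin.natAdd N j)) fun (_ : Unit) (x : Fin n → Bool) =>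
              g.eval (C.val fun i => F (u i) x)) ∘
            (Sum.elim (fun w => Sum.inl (Sum.inl w))
              (Fin.lastCases (motive := fun _ => (W ⊕ Fin s') ⊕ Unit) (Sum.inr ()) fun j => Sum.inl (Sum.inr j))) =
            (Sum.elim F fun (j : Fin (s' + 1)) (x : Fin n → Bool) =>
              (C.snoc g).val (fun i => F (u i) x) (Fin.natAdd N j)) := by
          funext w x
          rcases w with w | w
          · rfl
          · refine Fin.lastCases ?_ (fun j => ?_) w
            · show (Sum.elim (Sum.elim F fun (j : Fin s') (x : Fin n → Bool) =>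
                C.val (fun i => F (u i) x) (Fin.natAdd N j)) fun (_ : Unit) (x : Fin n → Bool) =>
                g.eval (C.val fun i => F (u i) x))
                (Fin.lastCases (motive := fun _ => (W ⊕ Fin s') ⊕ Unit) (Sum.inr ()) (fun j => Sum.inl (Sum.inr j))
                  (Fin.last s')) x = (C.snoc g).val (fun i => F (u i) x) (Fin.natAdd N (Fin.last s'))
              rw [Fin.lastCases_last]
              show g.eval (C.val fun i => F (u i) x) =
                Fin.snoc (α := fun _ => Bool) (C.val fun i => F (u i) x) (g.eval (C.val fun i => F (u i) x))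
                  (Fin.last (N + s'))
              rw [Fin.snoc_last]
            · show (Sum.elim (Sum.elim F fun (j : Fin s') (x : Fin n → Bool) =>
                C.val (fun i => F (u i) x) (Fin.natAdd N j)) fun (_ : Unit) (x : Fin n → Bool) =>
                g.eval (C.val fun i => F (u i) x))
                (Fin.lastCases (motive := fun _ => (W ⊕ Fin s') ⊕ Unit) (Sum.inr ()) (fun j => Sum.inl (Sum.inr j))
                  (Fin.castSucc j)) x = (C.snoc g).val (fun i => F (u i) x) (Fin.natAdd N (Fin.castSucc j))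
              rw [Fin.lastCases_castSucc]
              show C.val (fun i => F (u i) x) (Fin.natAdd N j) =
                Fin.snoc (α := fun _ => Bool) (C.val fun i => F (u i) x) (g.eval (C.val fun i => F (u i) x))
                  (Fin.castSucc (Fin.natAdd N j))
              rw [Fin.snoc_castSucc]
        rw [← h3]
        exact h2
      · have hl : ∀ j : Fin (s' + 1), (∃ j', j = Fin.castSucc j' ∧
            (Fin.lastCases (motive := fun _ => (W ⊕ Fin s') ⊕ Unit) (Sum.inr ()) (fun j => Sum.inl (Sum.inr j)) j) =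
              Sum.inl (Sum.inr j')) ∨ (j = Fin.last s' ∧
            (Fin.lastCases (motive := fun _ => (W ⊕ Fin s') ⊕ Unit) (Sum.inr ()) (fun j => Sum.inl (Sum.inr j)) j) =
              Sum.inr ()) := by
          intro j
          refine Fin.lastCases ?_ (fun j' => ?_) j
          · exact Or.inr ⟨rfl, Fin.lastCases_last⟩
          · exact Or.inl ⟨j', rfl, Fin.lastCases_castSucc _⟩
        rintro (w | w) (w' | w') h
        · have h' : (Sum.inl (Sum.inl w) : (W ⊕ Fin s') ⊕ Unit) = Sum.inl (Sum.inl w') := h
          rw [Sum.inl.inj (Sum.inl.inj h')]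
        · exfalso
          rcases hl w' with ⟨j', -, h1⟩ | ⟨-, h1⟩
          · have h' := (show (Sum.inl (Sum.inl w) : (W ⊕ Fin s') ⊕ Unit) = _ from h).trans h1
            exact nomatch (Sum.inl.inj h')
          · exact nomatch ((show (Sum.inl (Sum.inl w) : (W ⊕ Fin s') ⊕ Unit) = _ from h).trans h1)
        · exfalso
          rcases hl w with ⟨j', -, h1⟩ | ⟨-, h1⟩
          · have h' := (show (Sum.inl (Sum.inl w') : (W ⊕ Fin s') ⊕ Unit) = _ from h.symm).trans h1
            exact nomatch (Sum.inl.inj h')
          · exact nomatch ((show (Sum.inl (Sum.inl w') : (W ⊕ Fin s') ⊕ Unit) = _ from h.symm).trans h1)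
        · rcases hl w with ⟨j, hj, h1⟩ | ⟨hj, h1⟩ <;> rcases hl w' with ⟨j', hj', h1'⟩ | ⟨hj', h1'⟩
          · have h2 : (Sum.inl (Sum.inr j) : (W ⊕ Fin s') ⊕ Unit) = Sum.inl (Sum.inr j') := h1.symm.trans (Eq.trans h h1')
            rw [hj, hj', Sum.inr.inj (Sum.inl.inj h2)]
          · have h2 : (Sum.inl (Sum.inr j) : (W ⊕ Fin s') ⊕ Unit) = Sum.inr () := h1.symm.trans (Eq.trans h h1')
            exact nomatch h2
          · have h2 : (Sum.inr () : (W ⊕ Fin s') ⊕ Unit) = Sum.inl (Sum.inr j') := h1.symm.trans (Eq.trans h h1')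
            exact nomatch h2
          · rw [hj, hj']
      · rintro γ - (w | w)
        · rfl
        · refine Fin.lastCases ?_ (fun j => ?_) w
          · show (((act.sum (Act.triv _ (Fin s'))).sum (Act.triv _ Unit)).f γ
              (Fin.lastCases (motive := fun _ => (W ⊕ Fin s') ⊕ Unit) (Sum.inr ()) (fun j => Sum.inl (Sum.inr j))
                (Fin.last s'))) = (Fin.lastCases (motive := fun _ => (W ⊕ Fin s') ⊕ Unit) (Sum.inr ())
                  (fun j => Sum.inl (Sum.inr j)) (Fin.last s'))
            rw [Fin.lastCases_last]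
            rfl
          · show (((act.sum (Act.triv _ (Fin s'))).sum (Act.triv _ Unit)).f γ
              (Fin.lastCases (motive := fun _ => (W ⊕ Fin s') ⊕ Unit) (Sum.inr ()) (fun j => Sum.inl (Sum.inr j))
                (Fin.castSucc j))) = (Fin.lastCases (motive := fun _ => (W ⊕ Fin s') ⊕ Unit) (Sum.inr ())
                  (fun j => Sum.inl (Sum.inr j)) (Fin.castSucc j))
            rw [Fin.lastCases_castSucc]
            rfl
    · intro γ hγ a _
      constructor
      · intro ha
        show (act.sum (Act.triv _ (Fin s'))).f γ a ∈ K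
        rw [hfix γ hγ a ha]
        exact ha
      · intro ha
        have h1 : (act.sum (Act.triv _ (Fin s'))).f γ ((act.sum (Act.triv _ (Fin s'))).f γ a) =
            (act.sum (Act.triv _ (Fin s'))).f γ a := hfix γ hγ _ ha
        rw [(act.sum (Act.triv _ (Fin s'))).inv] at h1
        show a ∈ K
        rw [h1]
        exact ha
    · intro γ _ _
      rfl
    · intro _ x
      rw [hφ x]

end Pool.Agent.SGK
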