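import Pool.Agent.helper45.SGK.Spec

set_option autoImplicit false

namespace Pool.Agent.SGK

open Finset Pool.Agent.helper38.Neg Pool.Agent.helper55.NT
open Pool.Agent.SGC (Sg SCirc Ext Mv hw RN Solv stA stB)

theorem UFA_ad3 (a b c : Option (ZMod 2)) (u : ZMod 2) :
    ad3 a b c = some u ↔ ∃ x y z, a = some x ∧ b = some y ∧ c = some z ∧ u = x + y + z := by
  unfold ad3
  constructor
  · intro h
    rcases a with _ | x
    · simp at h
    rcases b with _ | y
    · simp at h
    rcases c with _ | z
    · simp at h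
    exact ⟨x, y, z, rfl, rfl, rfl, (Option.some.inj h).symm⟩
  · rintro ⟨x, y, z, rfl, rfl, rfl, rfl⟩
    rfl

theorem UFA_char {t : ℕ} (st : Fr t) (a b : Fin (t + 1)) (v : ZMod 2) (hst : IsFr st) (hab : st a b = none)
    (p q : Fin (t + 1)) (u : ZMod 2) :
    mrg st a b (some v) p q = some u ↔ st p q = some u ∨
      (∃ x y, st p a = some x ∧ st b q = some y ∧ u = x + v + y) ∨
      (∃ x y, st p b = some x ∧ st a q = some y ∧ u = x + v + y) := by
  obtain ⟨h1, h2, h3⟩ := hst
  have hno : ∀ x y, st a p = some x → st p b = some y → False := by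
    intro x y hx hy
    have := h3 _ _ _ _ _ hx hy
    rw [hab] at this
    exact (nomatch this)
  unfold mrg
  rcases hpq : st p q with _ | u'
  · rw [if_neg (by
      rintro (h | h | h)
      · exact (nomatch h)
      · exact h hab
      · exact h rfl)]
    rcases h4 : ad3 (st p a) (some v) (st b q) with _ | u1
    · show ad3 (st p b) (some v) (st a q) = some u ↔ _
      constructor
      · intro h5'
        obtain ⟨x, y, z, hx, hy, hz, hu⟩ := (UFA_ad3 _ _ _ _).mp h5'
        refine Or.inr (Or.inr ⟨x, z, hx, hz, ?_⟩)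
        rw [hu, Option.some.inj hy]
      · rintro (h5 | ⟨x, y, hx, hy, hu⟩ | ⟨x, y, hx, hy, hu⟩)
        · exact (nomatch h5)
        · have h6 := (UFA_ad3 (st p a) (some v) (st b q) u).mpr ⟨x, v, y, hx, rfl, hy, hu⟩
          rw [h4] at h6
          exact (nomatch h6)
        · exact (UFA_ad3 (st p b) (some v) (st a q) u).mpr ⟨x, v, y, hx, rfl, hy, hu⟩
    · obtain ⟨x, y, z, hx, hy, hz, hu⟩ := (UFA_ad3 _ _ _ _).mp h4
      have hy' := Option.some.inj hy
      show some u1 = some u ↔ _
      constructor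
      · intro h5
        have h5' : u1 = u := Option.some.inj h5
        exact Or.inr (Or.inl ⟨x, z, hx, hz, by rw [← h5', hu, hy']⟩)
      · rintro (h5 | ⟨x', y', hx', hy', hu'⟩ | ⟨x', y', hx', hy', hu'⟩)
        · exact (nomatch h5)
        · have e1 : x = x' := by
            rw [hx] at hx'
            exact Option.some.inj hx'
          have e2 : z = y' := by
            rw [hz] at hy'
            exact Option.some.inj hy'
          have e3 := Option.some.inj hy
          have : u1 = u := by rw [hu, hu', e1, e2, e3]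
          rw [this]
        · exact (hno _ _ (h2 _ _ _ hx) hx').elim
  · rw [if_pos (Or.inr (Or.inr (by simp)))]
    constructor
    · intro h
      exact Or.inl h
    · rintro (h5 | ⟨x, y, hx, hy, hu⟩ | ⟨x, y, hx, hy, hu⟩)
      · exact h5
      · exact (hno _ _ (h2 _ _ _ hx) (h3 _ _ _ _ _ hpq (h2 _ _ _ hy))).elim
      · have h6 : st a p = some (y + u') := h3 _ _ _ _ _ hy (h2 _ _ _ hpq)
        exact (hno _ _ h6 hx).elim

theorem UFA : UFA_stmt := by
  intro t
  refine ⟨⟨fun p => if_pos rfl, fun p q u h => ?_, fun p q r u v h1 h2 => ?_⟩, ?_⟩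
  · unfold fr0 at h ⊢
    by_cases hpq : p = q
    · rw [if_pos hpq] at h
      rw [if_pos hpq.symm, h]
    · rw [if_neg hpq] at h
      exact (nomatch h)
  · unfold fr0 at h1 h2 ⊢
    by_cases hpq : p = q
    · by_cases hqr : q = r
      · rw [if_pos hpq] at h1
        rw [if_pos hqr] at h2
        rw [if_pos (hpq.trans hqr), ← Option.some.inj h1, ← Option.some.inj h2, add_zero]
      · rw [if_neg hqr] at h2
        exact (nomatch h2)
    · rw [if_neg hpq] at h1
      exact (nomatch h1)
  intro st a b l hst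
  have triv : ∀ (l : Option (ZMod 2)), (l = none ∨ st a b ≠ none) → mrg st a b l = st := by
    intro l hl
    funext p q
    unfold mrg
    rcases hl with h | h
    · rw [if_pos (Or.inl h)]
    · rw [if_pos (Or.inr (Or.inl h))]
  rcases l with _ | v
  · rw [triv none (Or.inl rfl)]
    exact ⟨hst, fun p q u h => h, fun h => (h rfl).elim⟩
  by_cases hab : st a b = none
  · have hc := UFA_char st a b v hst hab
    obtain ⟨h1, h2, h3⟩ := hst
    have hno : ∀ p x y, st a p = some x → st p b = some y → False := by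
      intro p x y hx hy
      have := h3 _ _ _ _ _ hx hy
      rw [hab] at this
      exact (nomatch this)
    refine ⟨⟨fun p => (hc p p 0).mpr (Or.inl (h1 p)), fun p q u h => ?_, fun p q r u w hu hw => ?_⟩,
      fun p q u h => (hc p q u).mpr (Or.inl h), fun _ => ?_⟩
    · rw [hc] at h ⊢
      rcases h with h | ⟨x, y, hx, hy, hu⟩ | ⟨x, y, hx, hy, hu⟩
      · exact Or.inl (h2 _ _ _ h)
      · exact Or.inr (Or.inr ⟨y, x, h2 _ _ _ hy, h2 _ _ _ hx, by rw [hu]; ring⟩)
      · exact Or.inr (Or.inl ⟨y, x, h2 _ _ _ hy, h2 _ _ _ hx, by rw [hu]; ring⟩)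
    · rw [hc] at hu hw ⊢
      have htwo : ∀ z : ZMod 2, z + z = 0 := by decide
      rcases hu with hu | ⟨x, y, hx, hy, hu⟩ | ⟨x, y, hx, hy, hu⟩ <;>
        rcases hw with hw | ⟨x', y', hx', hy', hw⟩ | ⟨x', y', hx', hy', hw⟩
      · exact Or.inl (h3 _ _ _ _ _ hu hw)
      · exact Or.inr (Or.inl ⟨u + x', y', h3 _ _ _ _ _ hu hx', hy', by rw [hw]; ring⟩)
      · exact Or.inr (Or.inr ⟨u + x', y', h3 _ _ _ _ _ hu hx', hy', by rw [hw]; ring⟩)
      · exact Or.inr (Or.inl ⟨x, y + w, hx, h3 _ _ _ _ _ hy hw, by rw [hu]; ring⟩)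
      · exact (hno q x' y (h2 _ _ _ hx') (h2 _ _ _ hy)).elim
      · have e1 : y = x' := by
          have := h2 _ _ _ hy
          rw [hx'] at this
          exact (Option.some.inj this).symm
        refine Or.inl ?_
        have h4 := h3 _ _ _ _ _ hx hy'
        rw [h4, hu, hw, ← e1]
        congr 1
        have : x + v + y + (y + v + y') = x + y' + (v + v) + (y + y) := by ring
        rw [this, htwo, htwo, add_zero, add_zero]
      · exact Or.inr (Or.inr ⟨x, y + w, hx, h3 _ _ _ _ _ hy hw, by rw [hu]; ring⟩)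
      · have e1 : y = x' := by
          have := h2 _ _ _ hy
          rw [hx'] at this
          exact (Option.some.inj this).symm
        refine Or.inl ?_
        have h4 := h3 _ _ _ _ _ hx hy'
        rw [h4, hu, hw, ← e1]
        congr 1
        have : x + v + y + (y + v + y') = x + y' + (v + v) + (y + y) := by ring
        rw [this, htwo, htwo, add_zero, add_zero]
      · exact (hno q y x' hy hx').elim
    · have h4 := (hc a b (0 + v + 0)).mpr (Or.inr (Or.inl ⟨0, 0, h1 a, h1 b, rfl⟩))
      rw [h4]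
      simp
  · rw [triv (some v) (Or.inr hab)]
    exact ⟨hst, fun p q u h => h, fun _ => hab⟩

end Pool.Agent.SGK
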